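import Pool.Agent.H436.HP.Sch

set_option autoImplicit false

/-! # The Hilbert property for conic bundles of degree at most eight

Let `a` and `f` be nonzero polynomials in `t_1, ..., t_n` over a finitely generated field `k` of
characteristic zero, of degree at most eight in each variable, such that no variable occurs in
both, and let `V` be the conic bundle `w² = a(t) y² + f(t)` (`f` may contain the squares of further
variables, so quadric bundles are included; for `n = 1` these are the surfaces
`w² - a y² = f(t)`, `f` of degree at most eight, and `w² - a(t) y² = f`). There is a nonzero
polynomial `h` such that for all schemes birational to `V` these are equivalent: the rational points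
are dense; one fibre over a point off the hypersurface `h = 0` has a rational point; the Hilbert
property; unirationality. In this case (over any field of characteristic zero) the function field
embeds, relatively algebraically closed, in a field of rational functions.

Proof. The value of `f` at `z' = z + 64 (g_0 / g_1) A J n_7 / N`, where `A = a s²`, the `g_k` are the
Taylor coefficients at `z` in the direction of one coordinate, and `J`, `n_7`, `N` are explicit
polynomials in `A` and the normalized Taylor coefficients, is `f(z)` times a norm from `k(√a)`. After
two such moves the new coordinate `z'` is a rational function of the two parameters `s_1`, `s_2`, and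
the field it generates is relatively algebraically closed: near a simple root of the polynomial
(a place of the field of the first parameter) the second move is a Möbius transformation of the
normalized second parameter. The moves are made in the directions of all the coordinates, for the
symbol `(a, f)` on both sides.
-/

open AlgebraicGeometry CategoryTheory W560.HP Pool.Agent.TH178.HI

namespace Pool.Agent.Results.MP_87f965_ag.ConicBundlesDegreeEight

/-- The right side of the equation `w² = a(t_1, ..., t_n) y² + f(t_1, ..., t_n)` of the conic
bundle, in the variables `t_1, ..., t_n, y`. -/
noncomputable def conicBundle {k : Type} [Field k] {n : ℕ} (a f : MvPolynomial (Fin n) k) :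
    MvPolynomial (Fin (n + 1)) k :=
  MvPolynomial.rename Fin.castSucc a * MvPolynomial.X (Fin.last n) ^ 2 +
    MvPolynomial.rename Fin.castSucc f

/-- For some point `c` off the hypersurface `h = 0` of the affine space the conic
`X² = a(c) Y² + f(c) W²`, the fibre over `c`, has a `k`-point. -/
def HasSplitFibreOff {k : Type} [Field k] {n : ℕ} (a f h : MvPolynomial (Fin n) k) : Prop :=
  ∃ c : Fin n → k, MvPolynomial.eval c h ≠ 0 ∧ ∃ X Y W : k, ¬ (X = 0 ∧ Y = 0 ∧ W = 0) ∧
    X ^ 2 = MvPolynomial.eval c a * Y ^ 2 + MvPolynomial.eval c f * W ^ 2

/-- `K` embeds over `k` in the field of rational functions in some finite number of variables, such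
that all elements of the latter which are algebraic over the image are in the image. -/
def RegularlyUnirational (k K : Type) [Field k] [Field K] [Algebra k K] : Prop :=
  ∃ (N : ℕ) (φ : K →ₐ[k] FractionRing (MvPolynomial (Fin N) k)),
    ∀ z : FractionRing (MvPolynomial (Fin N) k), IsAlgebraic φ.fieldRange z → z ∈ φ.fieldRange

/-- **The Hilbert property for conic bundles of degree at most eight.** -/
theorem result (k : Type) [Field k] [CharZero k] (n : ℕ) (a f : MvPolynomial (Fin n) k)
    (ha : a ≠ 0) (hf : f ≠ 0)
    -- no variable occurs in both polynomials
    (hdis : ∀ j, MvPolynomial.degreeOf j a = 0 ∨ MvPolynomial.degreeOf j f = 0)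
    (hda : ∀ j, MvPolynomial.degreeOf j a ≤ 8) (hdf : ∀ j, MvPolynomial.degreeOf j f ≤ 8) :
    ∃ h : MvPolynomial (Fin n) k, h ≠ 0 ∧
      -- over every field of characteristic zero
      (HasSplitFibreOff a f h → ∀ (K : Type) [Field K] [Algebra k K],
        IsCoverField k (conicBundle a f) K → RegularlyUnirational k K) ∧
      -- over finitely generated fields
      ((∃ S : Finset k, IntermediateField.adjoin ℚ (S : Set k) = ⊤) →
        ∀ (X : Scheme.{0}) [IsIntegral X] (p : X ⟶ Spec (CommRingCat.of k))
          [LocallyOfFiniteType p], BirationalToCover k (conicBundle a f) X p →
          [DensePoints k X p, HasSplitFibreOff a f h, HilbertProperty k X p,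
            UnirationalScheme k X p].TFAE ∧
          ((∀ x : X, IsIntegrallyClosed (X.presheaf.stalk x)) → DensePoints k X p →
            HilbertPropertyIso k X p)) :=
  Pool.Agent.H436.HP.main_thm k n a f ha hf hdis hda hdf

end Pool.Agent.Results.MP_87f965_ag.ConicBundlesDegreeEight
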