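import Mathlib
import Pool.Agent.H865.SP.Fin

/-!
# The Hilbert property of the symmetric powers of twisted linear quotients

Let `k` be a number field, or any finitely generated or Hilbertian field of characteristic zero,
`L/k` a finite Galois extension, `α : G → Gal(L/k)` a surjective homomorphism of a finite group
`G`, and let `G` act faithfully and semilinearly, through `α`, on `L^N` (`N > 0`) and on the field
`L(x_1, ..., x_N)`. Let `X` be an integral `k`-scheme with function field `L(x_1, ..., x_N)^G`: it
is birational to a `k`-form of the quotient `V / H`, `H = ker α`, `V = L^N`. The group `H` is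
arbitrary, as is the outer action of `Gal(L/k)`, and `X` need not have rational points. Let `Z` be
a model of the `n`-th symmetric power of `X`.

1. There is `n₀`, which depends on `α` only, such that for all `n ≥ n₀` the following are
   equivalent: `Z` has the Hilbert property; `Z(k)` is Zariski dense; `Z` is unirational over `k`;
   the index of `α` divides `n`. So the question Q1 has a positive answer for the symmetric
   powers of large degree of all these `X`.
2. If `X(k)` is dense, for example if `L = k` (`X` is then birational to `V / G`), then `Z` has the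
   Hilbert property for all `n ≥ ((3|H| + 2)!)^3`.
3. For any `X`, `Z` has the Hilbert property if `n ≥ ((3|G| + 2)!)^3` and `[L : k]` divides `n`.

The definitions are in the files `Pool/Agent/H865/SP/Defs.lean` (`IsSymmetricPower`,
`IndexDivides`) and `Pool/Agent/H865/TQ/Defs.lean`.
-/

set_option autoImplicit false

open AlgebraicGeometry CategoryTheory
open W560.HP (HilbertProperty)
open Pool.Agent.R70.HC (HilbertPropertyIso)
open Pool.Agent.H865.TQ
open Pool.Agent.H865.SP

namespace Pool.Agent.Results.MP_87f965_ag.SymmetricPowers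

/-- The Hilbert property for finite covers of degree greater than one and, if `Z` is normal, for
all non-isomorphic finite covers. -/
def HP (k : Type) [Field k] (Z : Scheme.{0}) [IsIntegral Z] (q : Z ⟶ Spec (CommRingCat.of k)) :
    Prop :=
  HilbertProperty k Z q ∧
    ((∀ x : Z, IsIntegrallyClosed (Z.presheaf.stalk x)) → HilbertPropertyIso k Z q)

theorem result (k : Type) [Field k] [CharZero k] (hk : FinitelyGenerated k ∨ IsHilbertian k)
    (L : Type) [Field L] [Algebra k L] [FiniteDimensional k L] [IsGalois k L]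
    (G : Type) [Group G] [Finite G] (α : G →* (L ≃ₐ[k] L)) (hα : Function.Surjective α) :
    (∃ n₀ : ℕ, ∀ n ≥ n₀, ∀ (N : ℕ) (ρ : G → GL (Fin N) L),
      0 < N → IsSemilinear α ρ → IsFaithful α ρ →
      ∀ (X : Scheme.{0}) [IsIntegral X] (p : X ⟶ Spec (CommRingCat.of k)),
      IsQuotientModel k α ρ X p →
      ∀ (Z : Scheme.{0}) [IsIntegral Z] (q : Z ⟶ Spec (CommRingCat.of k))
        [LocallyOfFiniteType q], IsSymmetricPower k n X p Z q →
      [HP k Z q, DensePoints k Z q, IsUnirational k Z q, IndexDivides k L G α n].TFAE) ∧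
    (∀ (N : ℕ) (ρ : G → GL (Fin N) L), IsSemilinear α ρ → IsFaithful α ρ →
      ∀ (X : Scheme.{0}) [IsIntegral X] (p : X ⟶ Spec (CommRingCat.of k))
        [LocallyOfFiniteType p], IsQuotientModel k α ρ X p →
      ∀ (n : ℕ) (Z : Scheme.{0}) [IsIntegral Z] (q : Z ⟶ Spec (CommRingCat.of k))
        [LocallyOfFiniteType q], IsSymmetricPower k n X p Z q →
      (DensePoints k X p ∧ ((3 * Nat.card α.ker + 2).factorial) ^ 3 ≤ n ∨
        Module.finrank k L ∣ n ∧ ((3 * Nat.card G + 2).factorial) ^ 3 ≤ n) → HP k Z q) := by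
  have hK := hilb_of hk
  have hpos : ∀ m : ℕ, 0 < (m.factorial) ^ 3 := fun m => pow_pos (Nat.factorial_pos m) 3
  refine ⟨?_, ?_⟩
  · obtain ⟨n₀, hn₀⟩ := Pool.Agent.N600.NS.index_main k L G α hα
    refine ⟨n₀ + 1, fun n hn N ρ hN hρ hf X _ p hX Z _ q _ hZ => ?_⟩
    obtain ⟨h1, h2, -⟩ := hn₀ n (by omega)
    have h3 := tfae_sym k hK L G α hα N ρ hρ X p hX (by omega) Z q hZ hf hN h1 h2
    tfae_have 1 → 2 := fun h => (h3.out 0 1).1 h.1
    tfae_have 2 ↔ 3 := h3.out 1 2
    tfae_have 2 → 4 := (h3.out 1 3).1
    tfae_have 4 → 1 := fun h => hp_sym k hK L G α hα N ρ hρ X p hX (by omega) Z q hZ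
      (h1.2 ((idx_iff k L G α n).1 h))
    tfae_finish
  · intro N ρ hρ hf X _ p _ hX n Z _ q _ hZ h
    have hn : 0 < n := by
      rcases h with ⟨-, h⟩ | ⟨-, h⟩
      · exact lt_of_lt_of_le (hpos _) h
      · exact lt_of_lt_of_le (hpos _) h
    refine hp_sym k hK L G α hα N ρ hρ X p hX hn Z q hZ ?_
    rcases h with ⟨h1, h2⟩ | ⟨h1, h2⟩
    · have h3 := ((tfae_dense k hK L G α N ρ hρ hf X p hX).out 0 2).1 h1
      exact (Pool.Agent.H391R2.T4.regSol_iff _ _ _ _).2
        (Pool.Agent.TH59.WX.reg_fin_unif k L G α ((weak_iff k L G α).1 h3) n h2).1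
    · exact Pool.Agent.N600.NS.uniform_main k L G α hα n h2
        (by rwa [IsGalois.card_aut_eq_finrank])

end Pool.Agent.Results.MP_87f965_ag.SymmetricPowers
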