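import Mathlib
import Pool.Agent.H865.TQ.Main

/-!
# The Hilbert property of twisted linear quotients (quotients by finite group schemes)

Let `k` be a number field, or any finitely generated or Hilbertian field of characteristic zero,
`L/k` a finite Galois extension, `α : G → Gal(L/k)` a homomorphism of a finite group `G` (an
embedding problem over `k`), and let `G` act faithfully and semilinearly, through `α`, on `L^N` and
on the field `L(x_1, ..., x_N)`. We study the integral `k`-schemes `X`, locally of finite type,
with function field `L(x_1, ..., x_N)^G`. For surjective `α` they are the varieties birational to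
`k`-forms of `V / H`, `H = ker α`, for example (up to stable birational equivalence) the
homogeneous spaces of the groups `SL_n` with finite geometric stabilizer `H`; the smooth projective
ones are algebraically simply connected, and they need not have rational points.

1. `X(k)` is Zariski dense if and only if `X` is unirational over `k`, if and only if `α` is weakly
   solvable.
2. If `α` has a regular solution over `k(t)`, or if `X(k)` is dense and the kernel of `α` is
   solvable with abelian Sylow subgroups or belongs to the class `GoodKernel` (which contains for
   example the groups `S_n` and `A_n`, `n ≠ 6`), then `X` has the Hilbert property: the question Q1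
   has a positive answer for these `X`.
3. For any `α`, all these `X` have the Hilbert property if and only if all fibre powers of `α` are
   properly solvable over `k`.

The definitions are in the file `Pool/Agent/H865/TQ/Defs.lean`.
-/

set_option autoImplicit false

open AlgebraicGeometry CategoryTheory
open W560.HP (HilbertProperty)
open Pool.Agent.R70.HC (HilbertPropertyIso)
open Pool.Agent.H865.TQ

namespace Pool.Agent.Results.MP_87f965_ag.TwistedLinearQuotients

/-- `H` is solvable and all its Sylow subgroups are abelian. -/
def SolvableAbelianSylow (H : Type) [Group H] : Prop :=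
  Group.IsSolvable H ∧ ∀ ℓ : ℕ, ℓ.Prime → ∀ P : Sylow ℓ H, ∀ x ∈ P, ∀ y ∈ P, x * y = y * x

theorem result (k : Type) [Field k] [CharZero k] (hk : FinitelyGenerated k ∨ IsHilbertian k)
    (L : Type) [Field L] [Algebra k L] [FiniteDimensional k L] [IsGalois k L]
    (G : Type) [Group G] [Finite G] (α : G →* (L ≃ₐ[k] L))
    (N : ℕ) (ρ : G → GL (Fin N) L) (hρ : IsSemilinear α ρ) (hf : IsFaithful α ρ) :
    (∀ (X : Scheme.{0}) [IsIntegral X] (p : X ⟶ Spec (CommRingCat.of k))
      [LocallyOfFiniteType p], IsQuotientModel k α ρ X p →
        [DensePoints k X p, IsUnirational k X p, WeaklySolvable k L G α].TFAE ∧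
        (RegularlySolvable k L G α ∨
          (DensePoints k X p ∧ (SolvableAbelianSylow α.ker ∨ GoodKernel α.ker)) →
            HilbertProperty k X p ∧
              ((∀ x : X, IsIntegrallyClosed (X.presheaf.stalk x)) → HilbertPropertyIso k X p))) ∧
    ((∀ (X : Scheme.{0}) [IsIntegral X] (p : X ⟶ Spec (CommRingCat.of k))
      [LocallyOfFiniteType p], IsQuotientModel k α ρ X p → HilbertProperty k X p) ↔
        ∀ m : ℕ, ProperlySolvable k L (FibrePower k L G α m) (fibreProj k L G α m)) := by
  have hK := hilb_of hk
  refine ⟨fun X _ p _ hX => ?_, crit k hK L G α N ρ hρ hf⟩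
  have h1 := tfae_dense k hK L G α N ρ hρ hf X p hX
  refine ⟨h1, fun h => ?_⟩
  have hfree : FreeT k L α := by
    rcases h with h | ⟨h2, h3⟩
    · exact free_of_reg k L G hK α h
    · refine free_of_peelable k L G hK α ?_ ((h1.out 0 2).1 h2)
      rcases h3 with ⟨h4, h5⟩ | h3
      · exact Pool.Agent.T2H67.AG.peelable_of_sylow k α.ker fun ℓ hℓ _ => h5 ℓ hℓ
      · exact h3.peelable k
  exact hp_of_free k hK L G α hfree N ρ hρ X p hX

end Pool.Agent.Results.MP_87f965_ag.TwistedLinearQuotients
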